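import Pool.Agent.Work.MP_f81df4_al.H18Aux

/-! An explicit finitely presented group that is Bohr rigid and not profinitely rigid. -/

set_option autoImplicit false

namespace Pool.Agent.Results.MP_f81df4_al.Explicit

open Pool.Agent.Work.MP_f81df4_al.H18

universe u

open ProfiniteGrp.ProfiniteCompletion in
/-- `Lam 1` is finitely generated, residually finite and Bohr rigid, while `Lam 2` is finitely
generated, residually finite, not isomorphic to it and has the same profinite completion. -/
theorem result :
    (Group.FG (Lam 1) ∧ Group.ResiduallyFinite (Lam 1)) ∧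
    ((∃ (K : Type u) (_ : TopologicalSpace K) (_ : Group K) (i : Lam 1 →* K), IsBohr i) ∧
      ∀ (Γ : Type u) [Group Γ], Group.FG Γ → Group.ResiduallyFinite Γ →
        ∀ (K L : Type u) [TopologicalSpace K] [Group K] [TopologicalSpace L] [Group L]
          (i : Lam 1 →* K) (j : Γ →* L), IsBohr i → IsBohr j → Nonempty (L ≃ₜ* K) →
          Nonempty (Γ ≃* Lam 1)) ∧
    (Group.FG (Lam 2) ∧ Group.ResiduallyFinite (Lam 2) ∧
      Nonempty (completion (GrpCat.of (Lam 2)) ≃ₜ* completion (GrpCat.of (Lam 1))) ∧
      IsEmpty (Lam 2 ≃* Lam 1)) :=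
  main

end Pool.Agent.Results.MP_f81df4_al.Explicit
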